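import Pool.Agent.Y714.KF.Stm

set_option autoImplicit false
set_option maxHeartbeats 1000000

namespace Pool.Agent.Y407.KF

open NumberField FractionalIdeal Module Finset Pool.Agent.Y714.KF
open scoped nonZeroDivisors

variable (K : Type) [Field K] [NumberField K]

/-- a fractional ideal as an additive group -/
def ag (I : FI K) : AddSubgroup K := (I : Submodule (𝓞 K) K).toAddSubgroup

variable {K}

lemma mem_ag {I : FI K} {x : K} : x ∈ ag K I ↔ x ∈ I := Iff.rfl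

lemma ag_comap {d : K} (hd0 : d ≠ 0) (X : FI K) :
    (ag K (sp d * X)).comap (AddMonoidHom.mulLeft d) = ag K X := by
  ext x
  rw [AddSubgroup.mem_comap, AddMonoidHom.coe_mulLeft, mem_ag, mem_ag, mem_singleton_mul]
  constructor
  · rintro ⟨y, hy, hxy⟩
    rwa [mul_left_cancel₀ hd0 hxy]
  · intro hx
    exact ⟨x, hx, rfl⟩

lemma ag_map (d : K) (X : FI K) :
    (ag K X).map (AddMonoidHom.mulLeft d) = ag K (sp d * X) := by
  ext x
  rw [AddSubgroup.mem_map, mem_ag, mem_singleton_mul]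
  constructor
  · rintro ⟨y, hy, hxy⟩
    exact ⟨y, hy, hxy.symm⟩
  · rintro ⟨y, hy, hxy⟩
    exact ⟨y, hy, hxy.symm⟩

lemma ag_comap2 (X : Ideal (𝓞 K)) :
    (ag K (X : FI K)).comap (algebraMap (𝓞 K) K).toAddMonoidHom = X.toAddSubgroup := by
  ext x
  rw [AddSubgroup.mem_comap, mem_ag, mem_coeIdeal]
  constructor
  · rintro ⟨y, hy, hxy⟩
    have := FaithfulSMul.algebraMap_injective (𝓞 K) K hxy
    rw [← this]
    exact hy
  · intro hx
    exact ⟨x, hx, rfl⟩

lemma ag_map2 (X : Ideal (𝓞 K)) :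
    (X.toAddSubgroup).map (algebraMap (𝓞 K) K).toAddMonoidHom = ag K (X : FI K) := by
  ext x
  rw [AddSubgroup.mem_map, mem_ag, mem_coeIdeal]
  constructor
  · rintro ⟨y, hy, hxy⟩
    exact ⟨y, hy, hxy⟩
  · rintro ⟨y, hy, hxy⟩
    exact ⟨y, hy, hxy⟩

lemma index_ideal (X : Ideal (𝓞 K)) : X.toAddSubgroup.index = Ideal.absNorm X := by
  rw [Ideal.absNorm_apply, Submodule.cardQuot_apply]
  rfl

lemma exists_den (I : (FI K)ˣ) : ∃ (d : K) (I0 : Ideal (𝓞 K)), d ≠ 0 ∧ I0 ≠ ⊥ ∧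
    sp d * (I : FI K) = (I0 : FI K) := by
  have hI0 : (I : FI K) ≠ 0 := I.ne_zero
  have hd0 : algebraMap (𝓞 K) K ((I : FI K).den : 𝓞 K) ≠ 0 := by
    have := nonZeroDivisors.coe_ne_zero (I : FI K).den
    exact fun h => this ((map_eq_zero_iff _ (FaithfulSMul.algebraMap_injective (𝓞 K) K)).1 h)
  have hnum : sp (algebraMap (𝓞 K) K ((I : FI K).den : 𝓞 K)) * (I : FI K) =
      ((I : FI K).num : FI K) := den_mul_self_eq_num' (𝓞 K)⁰ K (I : FI K)
  refine ⟨_, _, hd0, ?_, hnum⟩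
  intro h
  rw [h] at hnum
  have h2 : sp (algebraMap (𝓞 K) K ((I : FI K).den : 𝓞 K)) * (I : FI K) = 0 := by
    rw [hnum]; simp
  rcases mul_eq_zero.1 h2 with h3 | h3
  · rw [spanSingleton_eq_zero_iff] at h3
    exact hd0 h3
  · exact hI0 h3

lemma num2 (I : (FI K)ˣ) (L I0 : Ideal (𝓞 K)) (d : K) (hnum : sp d * (I : FI K) = (I0 : FI K)) :
    sp d * ((L : FI K) * (I : FI K)) = ((L * I0 : Ideal (𝓞 K)) : FI K) := by
  rw [coeIdeal_mul, ← hnum, mul_left_comm]

lemma step1 (I : (FI K)ˣ) (L I0 : Ideal (𝓞 K)) (d : K) (hd0 : d ≠ 0)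
    (hnum : sp d * (I : FI K) = (I0 : FI K)) :
    (ag K ((L : FI K) * (I : FI K))).relIndex (ag K (I : FI K)) =
      (ag K ((L * I0 : Ideal (𝓞 K)) : FI K)).relIndex (ag K (I0 : FI K)) := by
  rw [← num2 I L I0 d hnum, ← hnum, ← ag_map d (I : FI K),
    ← AddSubgroup.relIndex_comap, ag_comap hd0]

lemma step2 (L I0 : Ideal (𝓞 K)) :
    (ag K ((L * I0 : Ideal (𝓞 K)) : FI K)).relIndex (ag K (I0 : FI K)) =
      (L * I0).toAddSubgroup.relIndex I0.toAddSubgroup := by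
  rw [← ag_map2 I0, ← AddSubgroup.relIndex_comap, ag_comap2]

lemma step3 (L I0 : Ideal (𝓞 K)) (hI00 : I0 ≠ ⊥) :
    (L * I0).toAddSubgroup.relIndex I0.toAddSubgroup = Ideal.absNorm L := by
  have h0 : L * I0 ≤ I0 := Ideal.mul_le_right
  have hle : (L * I0).toAddSubgroup ≤ I0.toAddSubgroup := Submodule.toAddSubgroup_mono h0
  have h3 := AddSubgroup.relIndex_mul_index hle
  rw [index_ideal, index_ideal, map_mul] at h3
  have h5 : Ideal.absNorm I0 ≠ 0 := by
    rw [Ne, Ideal.absNorm_eq_zero_iff]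
    exact hI00
  exact Nat.eq_of_mul_eq_mul_right (Nat.pos_of_ne_zero h5) h3

/-- index of `L I` in `I` for an integral ideal `L` -/
lemma relIndex_eq (I : (FI K)ˣ) (L : Ideal (𝓞 K)) :
    (ag K ((L : FI K) * (I : FI K))).relIndex (ag K (I : FI K)) = Ideal.absNorm L := by
  obtain ⟨d, I0, hd0, hI00, hnum⟩ := exists_den I
  rw [step1 I L I0 d hd0 hnum, step2, step3 L I0 hI00]

theorem cnt' {n : ℕ} (p : ℕ) (hp : p.Prime) (I : (FI K)ˣ) (b : Basis (Fin n) ℚ K)
    (hb : ∀ x : K, x ∈ (I : FI K) ↔ ∃ z : Fin n → ℤ, x = el b z) (J : FI K) (m : ℕ)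
    (h1 : sp (p : K) * (I : FI K) ≤ J) (h2 : J ≤ I) (h3 : nm J = (p : ℚ) ^ m * nm (I : FI K)) :
    {t : Fin n → ZMod p | ∃ z : Fin n → ℤ,
      (fun i => (z i : ZMod p)) = t ∧ el b z ∈ J}.ncard * p ^ m = p ^ n := by
  have hI0 : (I : FI K) ≠ 0 := I.ne_zero
  obtain ⟨L, hL⟩ := exists_ideal (inv_mul_le_one hI0 h2)
  have hJ : J = (L : FI K) * (I : FI K) := by
    rw [hL, mul_comm, ← mul_assoc, mul_inv_cancel₀ hI0, one_mul]
  have hN : Ideal.absNorm L = p ^ m := by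
    have h4 : nm J = (Ideal.absNorm L : ℚ) * nm (I : FI K) := by
      rw [hJ, nm, map_mul, coeIdeal_absNorm]
    rw [h3] at h4
    have h5 := mul_right_cancel₀ (nm_pos hI0).ne' h4
    exact_mod_cast h5.symm
  -- coordinates
  let ψ : (Fin n → ℤ) →+ K :=
    { toFun := fun z => el b z
      map_zero' := by unfold el; simp
      map_add' := fun z w => el_add b z w }
  have hrange : (⊤ : AddSubgroup (Fin n → ℤ)).map ψ = ag K (I : FI K) := by
    ext x
    rw [AddSubgroup.mem_map]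
    show (∃ z ∈ (⊤ : AddSubgroup (Fin n → ℤ)), el b z = x) ↔ x ∈ (I : FI K)
    rw [hb]
    constructor
    · rintro ⟨z, -, hz⟩
      exact ⟨z, hz.symm⟩
    · rintro ⟨z, hz⟩
      exact ⟨z, trivial, hz.symm⟩
  set LJ : AddSubgroup (Fin n → ℤ) := (ag K J).comap ψ with hLJ
  have hidx : LJ.index = p ^ m := by
    have h5 := AddSubgroup.relIndex_comap (ag K J) ψ ⊤
    rw [AddSubgroup.relIndex_top_right, hrange, hJ, relIndex_eq, hN] at h5
    rw [hLJ, hJ]
    exact h5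
  -- reduction
  let π : (Fin n → ℤ) →+ (Fin n → ZMod p) :=
    { toFun := fun z i => (z i : ZMod p)
      map_zero' := by funext i; simp
      map_add' := fun z w => by funext i; simp }
  have hsurj : Function.Surjective π := by
    intro t
    refine ⟨fun i => (ZMod.cast (t i) : ℤ), ?_⟩
    funext i
    show (((ZMod.cast (t i) : ℤ)) : ZMod p) = t i
    exact ZMod.intCast_zmod_cast (t i)
  have hker : π.ker ≤ LJ := by
    intro z hz
    have h5 : ∀ i, ((p : ℤ) ∣ z i) := by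
      intro i
      have := congrFun hz i
      exact (ZMod.intCast_zmod_eq_zero_iff_dvd (z i) p).1 this
    choose w hw using h5
    show el b z ∈ J
    apply h1
    rw [mem_singleton_mul]
    refine ⟨el b w, (hb _).2 ⟨w, rfl⟩, ?_⟩
    unfold el
    rw [mul_sum]
    refine sum_congr rfl fun i _ => ?_
    rw [hw i]
    push_cast
    ring
  have hmapidx := AddSubgroup.index_map_eq (H := LJ) hsurj hker
  have hset : {t : Fin n → ZMod p | ∃ z : Fin n → ℤ, (fun i => (z i : ZMod p)) = t ∧ el b z ∈ J} =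
      ((LJ.map π : AddSubgroup (Fin n → ZMod p)) : Set (Fin n → ZMod p)) := by
    ext t
    constructor
    · rintro ⟨z, hz, hzJ⟩
      exact ⟨z, hzJ, hz⟩
    · rintro ⟨z, hzJ, hz⟩
      exact ⟨z, hz, hzJ⟩
  have hcard := AddSubgroup.card_mul_index (LJ.map π)
  rw [hmapidx, hidx] at hcard
  have hp0 : NeZero p := ⟨hp.ne_zero⟩
  rw [hset]
  have e1 : Nat.card (Fin n → ZMod p) = p ^ n := by
    rw [Nat.card_eq_fintype_card, Fintype.card_fun, ZMod.card, Fintype.card_fin]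
  rw [e1] at hcard
  exact hcard

theorem cnt : S_CNT K := fun p hp I b hb J m h1 h2 h3 => cnt' p hp I b hb J m h1 h2 h3

end Pool.Agent.Y407.KF
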